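import Pool.Agent.Helper13.PS.St

/-!
# Project PS (MP_77ff3d_nt): module PI (range)
-/

set_option autoImplicit false

namespace Pool.Agent.Helper48.PS

open Finset Pool.Agent.Helper76.ND Pool.Agent.Helper13.PS

theorem hPI (hRl : StRl) : StPI := by
  intro t N h1 h2
  rw [mem_Icc]
  refine ⟨S_iter_pos h1 t, ?_⟩
  have h3 := hRl.1 t N
  have h4 : 2 ^ t * S^[t] N ≤ 2 ^ t * 3 ^ hd (wd t N) := by
    calc 2 ^ t * S^[t] N ≤ 2 ^ t * S^[t] N + cc (wd t N) := Nat.le_add_right _ _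
      _ = 3 ^ hd (wd t N) * N := h3.symm
      _ ≤ 3 ^ hd (wd t N) * 2 ^ t := Nat.mul_le_mul_left _ h2
      _ = 2 ^ t * 3 ^ hd (wd t N) := mul_comm _ _
  exact Nat.le_of_mul_le_mul_left h4 (by positivity)

end Pool.Agent.Helper48.PS
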