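import Pool.Agent.Helper13.PS.St2

/-!
# Project PS, part 2: module UG, one stage of the law
-/

set_option autoImplicit false

noncomputable section

namespace Pool.Agent.Helper48.PS

open Finset Pool.Agent.Helper76.ND Pool.Agent.Helper13.PS

private theorem wd_len (t N : ℕ) : (wd t N).length = t := by
  induction t with
  | zero => rfl
  | succ t ih => simp [wd, ih]

private theorem log3_lt : Real.log 3 < 11 / 10 := by
  have h1 : Real.log ((3 : ℝ) ^ 41) < Real.log ((2 : ℝ) ^ 65) :=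
    Real.log_lt_log (by positivity) (by norm_num)
  rw [Real.log_pow, Real.log_pow] at h1
  have h2 := Real.log_two_lt_d9
  push_cast at h1
  linarith

private theorem pow_big : ∀ t : ℕ, 20 ≤ t → 2 * (t : ℝ) ≤ (4 / 3 : ℝ) ^ t := by
  intro t ht
  induction t, ht using Nat.le_induction with
  | base => norm_num
  | succ t ht ih =>
    rw [pow_succ]
    push_cast
    have : (20 : ℝ) ≤ t := by exact_mod_cast ht
    linarith

theorem hUG (hRl : StRl) (hDr : StDr) : StUG := by
  intro H t N hH htH hHt hN1 hN2 hE i hi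
  obtain ⟨hR1, _, hR3⟩ := hRl
  have ht0 : (0 : ℝ) ≤ t := Nat.cast_nonneg t
  have ht2500 : (2500 : ℝ) ≤ t := by nlinarith
  have htp : (0 : ℝ) < t := by linarith
  have ht20 : 20 ≤ t := by
    have : (20 : ℝ) ≤ t := by linarith
    exact_mod_cast this
  set D : ℝ := H / t with hD
  have hD1 : 1 ≤ D := by rw [hD, le_div_iff₀ htp]; linarith
  have hD0 : 0 ≤ D := by linarith
  have hD2 : D ≤ t / 2500 := by
    rw [hD, div_le_iff₀ htp]
    nlinarith
  unfold EU at hE
  rw [← hD] at hE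
  push Not at hE
  obtain ⟨hE1, hE2⟩ := hE
  -- the heads
  have hhd : ∀ j ≤ t, |(hd (wd j N) : ℝ) - j / 2| ≤ D := by
    intro j hj
    have h1 := hE2 j (by rw [wd_len]; exact hj)
    rw [wd_len, hR3 t j N hj] at h1
    exact h1
  have hGd : ∀ i ≤ t, Gd D (wd i N) := by
    intro i hi j hj
    rw [wd_len] at hj ⊢
    rw [hR3 i j N hj]
    exact hhd j (le_trans hj hi)
  have hNR : (1 : ℝ) ≤ N := by exact_mod_cast hN1
  have hl2 : 0 < Real.log 2 := Real.log_pos (by norm_num)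
  have hl2' := Real.log_two_lt_d9
  have hl3 := log3_lt
  have hsq : 2 / Real.sqrt 3 ≤ 5 / 4 := by
    rw [div_le_iff₀ (by positivity)]
    have : (8 / 5 : ℝ) ≤ Real.sqrt 3 := Real.le_sqrt_of_sq_le (by norm_num)
    linarith
  have hsq1 : 1 ≤ 2 / Real.sqrt 3 := by
    rw [le_div_iff₀ (by positivity)]
    have : Real.sqrt 3 ≤ 2 := Real.sqrt_le_iff.2 ⟨by norm_num, by norm_num⟩
    linarith
  -- 3^D e^D
  have h3e : (3 : ℝ) ^ D * Real.exp D ≤ (6 / 5 : ℝ) ^ t := by
    have hlog : 3 / 2500 ≤ Real.log (6 / 5) := by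
      have h := Real.one_sub_inv_le_log_of_pos (show (0 : ℝ) < 6 / 5 by norm_num)
      norm_num at h
      linarith
    rw [← Real.exp_log (show (0 : ℝ) < (6 / 5 : ℝ) ^ t by positivity), Real.log_pow,
      Real.rpow_def_of_pos (by norm_num), ← Real.exp_add]
    apply Real.exp_le_exp.2
    have h1 : Real.log 3 * D ≤ 11 / 10 * D := mul_le_mul_of_nonneg_right hl3.le hD0
    have h2 : (t : ℝ) * (3 / 2500) ≤ t * Real.log (6 / 5) := mul_le_mul_of_nonneg_left hlog ht0
    linarith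
  -- the constant term
  have hcc : ∀ i ≤ t, (cc (wd i N) : ℝ) ≤ 3 ^ hd (wd i N) * (N / 2) := by
    intro i hi
    refine le_trans (hDr (wd i N) D hD0 (hGd i hi)) ?_
    refine mul_le_mul_of_nonneg_left ?_ (by positivity)
    rw [wd_len]
    have h1 : (i : ℝ) ≤ t := by exact_mod_cast hi
    have h2 : (2 / Real.sqrt 3) ^ i ≤ (5 / 4 : ℝ) ^ t :=
      le_trans (pow_le_pow_right₀ hsq1 hi) (pow_le_pow_left₀ (by positivity) hsq _)
    have h3 : (i : ℝ) * (2 / Real.sqrt 3) ^ i ≤ t * (5 / 4 : ℝ) ^ t :=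
      mul_le_mul h1 h2 (by positivity) (by positivity)
    have h4 : (i : ℝ) * (2 / Real.sqrt 3) ^ i * (3 : ℝ) ^ D * Real.exp D ≤
        1 / 2 * (2 : ℝ) ^ t := by
      calc (i : ℝ) * (2 / Real.sqrt 3) ^ i * (3 : ℝ) ^ D * Real.exp D
          = ((i : ℝ) * (2 / Real.sqrt 3) ^ i) * ((3 : ℝ) ^ D * Real.exp D) := by ring
        _ ≤ (t * (5 / 4 : ℝ) ^ t) * (6 / 5 : ℝ) ^ t :=
            mul_le_mul h3 h3e (by positivity) (by positivity)
        _ = t * (3 / 2 : ℝ) ^ t := by
            rw [mul_assoc, ← mul_pow]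
            norm_num
        _ ≤ 1 / 2 * ((4 / 3 : ℝ) ^ t * (3 / 2 : ℝ) ^ t) := by
            have h5 := pow_big t ht20
            have h6 : (t : ℝ) ≤ 1 / 2 * (4 / 3 : ℝ) ^ t := by linarith
            calc (t : ℝ) * (3 / 2 : ℝ) ^ t ≤ (1 / 2 * (4 / 3 : ℝ) ^ t) * (3 / 2 : ℝ) ^ t :=
                  mul_le_mul_of_nonneg_right h6 (by positivity)
              _ = _ := by ring
        _ = 1 / 2 * (2 : ℝ) ^ t := by
            rw [← mul_pow]
            norm_num
    have h5 : (2 : ℝ) ^ t ≤ N * Real.exp D := by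
      have h6 := mul_le_mul_of_nonneg_right hE1 (Real.exp_pos D).le
      rwa [mul_assoc, ← Real.exp_add, neg_add_cancel, Real.exp_zero, mul_one] at h6
    have h7 : (i : ℝ) * (2 / Real.sqrt 3) ^ i * (3 : ℝ) ^ D * Real.exp D ≤
        (N / 2) * Real.exp D := by linarith
    exact le_of_mul_le_mul_right h7 (Real.exp_pos D)
  refine ⟨?_, hhd i hi⟩
  -- the size
  have h1 := hR1 i N
  have h2 : (3 : ℝ) ^ hd (wd i N) * N = 2 ^ i * (S^[i] N : ℕ) + cc (wd i N) := by
    exact_mod_cast h1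
  have h3 := hcc i hi
  have h4 : (2 : ℝ) ^ i * (S^[i] N : ℕ) ≤ 3 ^ hd (wd i N) * N := by
    have : (0 : ℝ) ≤ cc (wd i N) := by positivity
    linarith
  have h5 : (3 : ℝ) ^ hd (wd i N) * N ≤ 2 * (2 ^ i * (S^[i] N : ℕ)) := by linarith
  have hSpos : (0 : ℝ) < (S^[i] N : ℕ) := by
    by_contra hneg
    push Not at hneg
    have : (0 : ℝ) < (3 : ℝ) ^ hd (wd i N) * N := by positivity
    have h6 : (2 : ℝ) ^ i * (S^[i] N : ℕ) ≤ 0 := mul_nonpos_of_nonneg_of_nonpos (by positivity)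
      hneg
    linarith
  have h7 : Real.log ((2 : ℝ) ^ i * (S^[i] N : ℕ)) = i * Real.log 2 + Real.log (S^[i] N : ℕ) := by
    rw [Real.log_mul (by positivity) hSpos.ne', Real.log_pow]
  have h8 : Real.log ((3 : ℝ) ^ hd (wd i N) * N) =
      hd (wd i N) * Real.log 3 + Real.log N := by
    rw [Real.log_mul (by positivity) (by positivity), Real.log_pow]
  have h9 := Real.log_le_log (by positivity) h4
  have h10 := Real.log_le_log (by positivity) h5
  have h10' : Real.log (2 * ((2 : ℝ) ^ i * (S^[i] N : ℕ))) =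
      Real.log 2 + Real.log ((2 : ℝ) ^ i * (S^[i] N : ℕ)) :=
    Real.log_mul (by norm_num) (by positivity)
  rw [h7, h8] at h9
  rw [h10', h7, h8] at h10
  have hrho : rho = Real.log 2 - Real.log 3 / 2 := by
    unfold rho
    rw [Real.log_div (by norm_num) (by norm_num),
      show (4 : ℝ) = 2 ^ 2 by norm_num, Real.log_pow]
    push_cast
    ring
  have h11 := abs_le.1 (hhd i hi)
  have hl3p : 0 < Real.log 3 := Real.log_pos (by norm_num)
  have h12 : |((hd (wd i N) : ℝ) - i / 2) * Real.log 3| ≤ D * (11 / 10) := by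
    rw [abs_mul, abs_of_pos hl3p]
    exact mul_le_mul (hhd i hi) hl3.le hl3p.le hD0
  have h13 := abs_le.1 h12
  rw [hrho, abs_le]
  constructor
  · nlinarith [h13.1, h13.2]
  · nlinarith [h13.1, h13.2]

end Pool.Agent.Helper48.PS
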