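import Pool.Agent.Helper64.PS.SW

/-!
# MP_8013d7_co, module KA: toggling (uses the module SW)
-/

set_option autoImplicit false

namespace PS

open SimpleGraph Finset Pool.Agent.Helper37.PathSys
open Pool.Agent.Helper37.PathSys.PathSystem
open Filter Topology

open scoped Classical

noncomputable section

variable {n : ℕ} {G : SimpleGraph (Fin n)} {P : PathSystem G}

namespace KA

/-- `Cn` only depends on the paths of the pairs on one side of `W` -/
lemma Cn_congr {W : Finset (Fin n)} {P P' : PathSystem G}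
    (h : ∀ a b : Fin n, (a ∈ W ↔ b ∈ W) → P.path a b = P'.path a b) : Cn W P = Cn W P' := by
  ext w
  constructor
  · rintro ⟨h1, h2⟩
    refine ⟨h1, fun a b hab q => ?_⟩
    rw [← h a b hab]
    exact h2 a b hab q
  · rintro ⟨h1, h2⟩
    refine ⟨h1, fun a b hab q => ?_⟩
    rw [h a b hab]
    exact h2 a b hab q

lemma Rig_congr {W : Finset (Fin n)} {P P' : PathSystem G} (h : Cn W P = Cn W P')
    {u z x : Fin n} : Rig W P u z x ↔ Rig W P' u z x := by
  unfold Rig
  rw [h]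

/-- a long path whose end edges can be replaced at no cost does not occur in an induced system -/
lemma no_long (hP : P.Consistent) {w : Sym2 (Fin n) → ℝ} (hw : P.Induces w)
    {u v x y z : Fin n} (huv : u ≠ v) (hx : P.nxt u v = x) (hy : P.nxt v u = y) (hxv : x ≠ v)
    (hxy : (dirG P).Adj x y) (hu : (dirG P).Adj u z) (hv : (dirG P).Adj v z)
    (h1 : w s(u, z) = w s(u, x)) (h2 : w s(v, z) = w s(v, y)) : False := by
  obtain ⟨ha, hp⟩ := path_cons hP huv
  subst hx
  have hr : P.nxt v (P.nxt u v) = y := by rw [nxt_rev hP huv hxv, hy]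
  obtain ⟨hb, hc, hq⟩ := path_two hP hxv.symm hr hxy.symm
  have hwt : weight w (P.path u v : G.Walk u v) =
      w s(u, P.nxt u v) + (w s(v, y) + w s(y, P.nxt u v)) := by
    rw [hp]
    unfold weight
    rw [Walk.edges_cons, List.map_cons, List.sum_cons, P.symm v (P.nxt u v), hq,
      Walk.edges_reverse, List.map_reverse, List.sum_reverse]
    simp
  have hzu : u ≠ z := hu.1
  have hzv : z ≠ v := hv.1.symm
  have hGu : G.Adj u z := dirG_le hP hu
  have hGv : G.Adj z v := (dirG_le hP hv).symm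
  have hpath : (Walk.cons hGu (Walk.cons hGv Walk.nil)).IsPath := by
    simp [Walk.cons_isPath_iff, hzu, hzv, huv]
  have h3 := hw.2 u v ⟨_, hpath⟩
  rw [hwt] at h3
  have h4 : weight w (Walk.cons hGu (Walk.cons hGv Walk.nil) : G.Walk u v) =
      w s(u, z) + w s(z, v) := by
    unfold weight
    simp
  have h5 : 0 < w s(y, P.nxt u v) := hw.1 _ (dirG_le hP hxy).symm
  change _ ≤ weight w (Walk.cons hGu (Walk.cons hGv Walk.nil) : G.Walk u v) at h3
  rw [h4, Sym2.eq_swap (a := z)] at h3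
  linarith

/-- two systems which differ at the pairs of a quadruple only, with the same next vertices -/
lemma eq_of_quad {P P' : PathSystem G} (hP : P.Consistent) (hP' : P'.Consistent)
    {u v x y : Fin n}
    (h : ∀ a b : Fin n, s(a, b) ≠ s(u, y) → s(a, b) ≠ s(v, x) → s(a, b) ≠ s(u, v) →
      P.path a b = P'.path a b)
    (h1 : P.nxt u v = P'.nxt u v) (h2 : P.nxt u y = P'.nxt u y) (h3 : P.nxt v x = P'.nxt v x) :
    P = P' := by
  apply eq_of_nxt_any hP hP'
  intro a b _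
  by_cases ha : s(a, b) = s(u, y)
  · rw [Sym2.eq_iff] at ha
    rcases ha with ⟨rfl, rfl⟩ | ⟨rfl, rfl⟩
    · exact Or.inr (Or.inl h2)
    · exact Or.inr (Or.inr h2)
  by_cases hb : s(a, b) = s(v, x)
  · rw [Sym2.eq_iff] at hb
    rcases hb with ⟨rfl, rfl⟩ | ⟨rfl, rfl⟩
    · exact Or.inr (Or.inl h3)
    · exact Or.inr (Or.inr h3)
  by_cases hc : s(a, b) = s(u, v)
  · rw [Sym2.eq_iff] at hc
    rcases hc with ⟨rfl, rfl⟩ | ⟨rfl, rfl⟩
    · exact Or.inr (Or.inl h1)
    · exact Or.inr (Or.inr h1)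
  exact Or.inl (h a b ha hb hc)

lemma side_ne {W : Finset (Fin n)} {a b u v : Fin n} (hu : u ∈ W) (hv : v ∉ W)
    (hab : a ∈ W ↔ b ∈ W) : s(a, b) ≠ s(u, v) := by
  intro h
  rw [Sym2.eq_iff] at h
  rcases h with ⟨rfl, rfl⟩ | ⟨rfl, rfl⟩
  · exact hv (hab.1 hu)
  · exact hv (hab.2 hu)

end KA

theorem toggles (W : Finset (Fin n)) :
    ∑ P ∈ Met G, (TT W P).card ≤ n ^ 3 * (Al G).card := by
  classical
  have key : ∀ t : (_ : PathSystem G) × (Fin n × Fin n × Fin n × Fin n),
      ∃ P' : PathSystem G, t ∈ (Met G).sigma (TT W) → (P'.Consistent ∧ dirG P' = dirG t.1 ∧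
      (∀ a b : Fin n, s(a, b) ≠ s(t.2.1, t.2.2.2.2) → s(a, b) ≠ s(t.2.2.1, t.2.2.2.1) →
        s(a, b) ≠ s(t.2.1, t.2.2.1) → P'.path a b = t.1.path a b) ∧
      P'.nxt t.2.1 t.2.2.2.2 = t.2.2.2.1 ∧ P'.nxt t.2.2.2.2 t.2.1 = t.2.2.2.1 ∧
      P'.nxt t.2.2.1 t.2.2.2.1 = t.2.2.2.2 ∧ P'.nxt t.2.2.2.1 t.2.2.1 = t.2.2.2.2 ∧
      P'.nxt t.2.1 t.2.2.1 = t.2.2.2.1 ∧ P'.nxt t.2.2.1 t.2.1 = t.2.2.2.2) := by
    rintro ⟨P, u, v, x, y⟩
    by_cases h : (⟨P, u, v, x, y⟩ : (_ : PathSystem G) × (Fin n × Fin n × Fin n × Fin n)) ∈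
      (Met G).sigma (TT W)
    · have hP : P.Consistent := by
        have h1 := (mem_sigma.1 h).1
        simp only [Met, Al, mem_filter, mem_univ, true_and] at h1
        exact h1.1
      have hq : (u, v, x, y) ∈ Quad P := by
        have h1 := (mem_sigma.1 h).2
        simp only [TT, mem_filter] at h1
        exact h1.1
      obtain ⟨P', h'⟩ := switch_quad hP hq
      exact ⟨P', fun _ => h'⟩
    · exact ⟨P, fun h' => absurd h' h⟩
  choose f hf using key
  have hcard : ((Al G) ×ˢ (univ : Finset (Fin n × Fin n × Fin n))).card = n ^ 3 * (Al G).card := by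
    rw [card_product, card_univ]
    simp only [Fintype.card_prod, Fintype.card_fin]
    ring
  rw [← card_sigma, ← hcard]
  apply card_le_card_of_injOn (fun t => (f t, t.1.nxt t.2.1 t.2.2.1, t.1.nxt t.2.1 t.2.2.2.2,
    t.1.nxt t.2.2.1 t.2.2.2.1))
  · intro t ht
    simp only [mem_univ, and_true, Al, mem_filter, true_and, coe_product,
      mem_coe, Finset.coe_univ, Set.mem_prod, Set.mem_univ]
    exact (hf t ht).1
  · rintro ⟨P, u, v, x, y⟩ hp ⟨P', u', v', x', y'⟩ hp' heq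
    have hp := Finset.mem_coe.1 hp
    have hp' := Finset.mem_coe.1 hp'
    simp only [Prod.mk.injEq] at heq
    obtain ⟨e1, e2, e3, e4⟩ := heq
    obtain ⟨a1, a2, a3, a4, a5, a6, a7, a8, a9⟩ := hf _ hp
    obtain ⟨b1, b2, b3, b4, b5, b6, b7, b8, b9⟩ := hf _ hp'
    rw [← e1] at b1 b2 b3 b4 b5 b6 b7 b8 b9
    generalize f ⟨P, u, v, x, y⟩ = Q at *
    simp only at a2 a3 a4 a5 a6 a7 a8 a9 b2 b3 b4 b5 b6 b7 b8 b9 e2 e3 e4
    have hM := (mem_sigma.1 hp).1
    have hM' := (mem_sigma.1 hp').1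
    have hT := (mem_sigma.1 hp).2
    have hT' := (mem_sigma.1 hp').2
    simp only [Met, Al, mem_filter, mem_univ, true_and] at hM hM'
    simp only [TT, mem_filter, Quad, mem_univ, true_and] at hT hT'
    obtain ⟨hP, w, hw⟩ := hM
    obtain ⟨hP', -⟩ := hM'
    obtain ⟨⟨q1, q2, q3, q4, q5, q6, q7, q8, q9, q10, q11, q12, q13, q14⟩, r1, r2, r3, r4, -⟩ := hT
    obtain ⟨⟨s1, s2, s3, s4, s5, s6, s7, s8, s9, s10, s11, s12, s13, s14⟩, t1, t2, t3, t4,
      z, t5, t6, t7, t8⟩ := hT'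
    have hF : dirG P' = dirG P := by rw [← b2, a2]
    have hC : Cn W Q = Cn W P := by
      apply KA.Cn_congr
      intro a b hab
      exact a3 a b (KA.side_ne r1 r4 hab) (fun h => KA.side_ne r2 r3 hab (h.trans Sym2.eq_swap))
        (KA.side_ne r1 r3 hab)
    have hC' : Cn W Q = Cn W P' := by
      apply KA.Cn_congr
      intro a b hab
      exact b3 a b (KA.side_ne t1 t4 hab) (fun h => KA.side_ne t2 t3 hab (h.trans Sym2.eq_swap))
        (KA.side_ne t1 t3 hab)
    have hC'' : Cn W P' = Cn W P := by rw [← hC', hC]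
    have hxy' : x' ≠ y' := fun h => t4 (h ▸ t2)
    -- the quadruples have the same ends
    have huv : u' = u ∧ v' = v := by
      by_contra hne
      have n1 : s(u', v') ≠ s(u, y) := by
        intro h
        rw [Sym2.eq_iff] at h
        rcases h with ⟨rfl, rfl⟩ | ⟨rfl, rfl⟩
        · exact hxy' (by rw [← b8, ← b9, a4, a5])
        · exact hxy' (by rw [← b8, ← b9, a4, a5])
      have n2 : s(u', v') ≠ s(v, x) := by
        intro h
        rw [Sym2.eq_iff] at h
        rcases h with ⟨rfl, rfl⟩ | ⟨rfl, rfl⟩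
        · exact hxy' (by rw [← b8, ← b9, a6, a7])
        · exact hxy' (by rw [← b8, ← b9, a6, a7])
      have n3 : s(u', v') ≠ s(u, v) := by
        intro h
        rw [Sym2.eq_iff] at h
        rcases h with ⟨rfl, rfl⟩ | ⟨rfl, rfl⟩
        · exact hne ⟨rfl, rfl⟩
        · exact r3 t1
      have n1' : s(v', u') ≠ s(u, y) := fun h => n1 (Sym2.eq_swap.trans h)
      have n2' : s(v', u') ≠ s(v, x) := fun h => n2 (Sym2.eq_swap.trans h)
      have n3' : s(v', u') ≠ s(u, v) := fun h => n3 (Sym2.eq_swap.trans h)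
      have hx' : P.nxt u' v' = x' := by
        unfold nxt
        rw [← a3 u' v' n1 n2 n3]
        exact b8
      have hy' : P.nxt v' u' = y' := by
        unfold nxt
        rw [← a3 v' u' n1' n2' n3']
        exact b9
      have hwC : w ∈ Cn W P := ⟨hw.1, fun a b _ q => hw.2 a b q⟩
      rw [hF] at s1 t5 t6
      have t7' : Rig W P u' z x' := (KA.Rig_congr hC'').1 t7
      have t8' : Rig W P v' z y' := (KA.Rig_congr hC'').1 t8
      exact KA.no_long hP hw s9 hx' hy' (fun h => s8 h.symm) s1 t5 t6 (t7' w hwC) (t8' w hwC)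
    obtain ⟨rfl, rfl⟩ := huv
    obtain rfl : x' = x := by rw [← b8, a8]
    obtain rfl : y' = y := by rw [← b9, a9]
    have hPP : P = P' := by
      apply KA.eq_of_quad hP hP' _ e2 e3 e4
      intro a b h1 h2 h3
      rw [← a3 a b h1 h2 h3, b3 a b h1 h2 h3]
    subst hPP
    rfl

end

end PS
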